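import Pool.Agent.U737.GP.Poly

/-!
# The number of flags of a generalized polygon
-/

set_option autoImplicit false

namespace Pool.Agent.U737.GP

open Finset

variable {V : Type} [Fintype V] [DecidableEq V] {n : ℕ} {Γ : SimpleGraph V}

open Classical in
/-- The flags on the side of `b`, as pairs with the nearer vertex first. -/
noncomputable def B (Γ : SimpleGraph V) (a b : V) (k : ℕ) : Finset (V × V) :=
  univ.filter (fun x => Γ.Adj x.1 x.2 ∧ Γ.dist b x.1 = k ∧ Γ.dist b x.2 = k + 1 ∧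
    Γ.dist a x.1 = k + 1 ∧ ¬ (x.1 = b ∧ x.2 = a))

theorem mem_B {a b : V} {k : ℕ} {x : V × V} : x ∈ B Γ a b k ↔ Γ.Adj x.1 x.2 ∧
    Γ.dist b x.1 = k ∧ Γ.dist b x.2 = k + 1 ∧ Γ.dist a x.1 = k + 1 ∧ ¬ (x.1 = b ∧ x.2 = a) := by
  classical
  unfold B
  rw [mem_filter]
  simp

open Classical in
theorem B_growth (h : Poly n Γ) {a b : V} (hab : Γ.Adj a b)
    (hth : ∀ v u : V, ∃ w w', Γ.Adj v w ∧ Γ.Adj v w' ∧ w ≠ u ∧ w' ≠ u ∧ w ≠ w') {k : ℕ}
    (hk : k + 1 < n) : (B Γ a b k).card * 2 ≤ (B Γ a b (k + 1)).card := by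
  have h1 := card_mul_le_card_mul (s := B Γ a b k) (t := B Γ a b (k + 1))
    (fun (x y : V × V) => x.2 = y.1) (m := 2) (n := 1) ?_ ?_
  · simpa using h1
  · rintro ⟨u, v⟩ hx
    rw [mem_B] at hx
    obtain ⟨h2, h3, h4, h5, h6⟩ := hx
    simp only at h2 h3 h4 h5 h6
    have h7 : Γ.dist a v = k + 2 := by
      rcases h.ds' a h2 with h8 | h8
      · exfalso
        rcases h.cross hab.symm h2 (by omega) (by omega) with h9 | h9
        · exact h6 h9
        · omega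
      · omega
    obtain ⟨w, w', h8, h9, h10, h11, h12⟩ := hth v u
    have key : ∀ w, Γ.Adj v w → w ≠ u → (v, w) ∈ (B Γ a b (k + 1)).filter
        (fun y => v = y.1) := by
      intro w h8 h10
      rw [mem_filter, mem_B]
      refine ⟨⟨h8, h4, ?_, h7, ?_⟩, rfl⟩
      · have h13 := h.ds b h8
        rw [SimpleGraph.dist_comm (u := v), SimpleGraph.dist_comm (u := w)] at h13
        rcases h13 with h13 | h13
        · exfalso
          apply h10
          refine (h.un b (by rw [SimpleGraph.dist_comm]; omega) h2.symm h8 ?_ ?_).symm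
          · rw [SimpleGraph.dist_comm, SimpleGraph.dist_comm (u := v)]; omega
          · rw [SimpleGraph.dist_comm, SimpleGraph.dist_comm (u := v)]; omega
        · show Γ.dist b w = k + 1 + 1
          omega
      · rintro ⟨h13, -⟩
        simp only at h13
        rw [h13, SimpleGraph.dist_self] at h4
        omega
    have h13 : ({(v, w), (v, w')} : Finset (V × V)) ⊆ (B Γ a b (k + 1)).filter
        (fun y => v = y.1) := by
      intro y hy
      rw [mem_insert, mem_singleton] at hy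
      rcases hy with rfl | rfl
      · exact key w h8 h10
      · exact key w' h9 h11
    have h14 := card_le_card h13
    rw [card_pair (by
      intro h15
      rw [Prod.mk.injEq] at h15
      exact h12 h15.2)] at h14
    exact h14
  · rintro ⟨v, w⟩ hy
    rw [mem_B] at hy
    obtain ⟨h2, h3, h4, h5, h6⟩ := hy
    simp only at h2 h3 h4 h5 h6
    rw [card_le_one]
    rintro ⟨u, v₁⟩ h7 ⟨u', v₂⟩ h8
    rw [mem_bipartiteBelow, mem_B] at h7 h8
    obtain ⟨⟨e1, e2, e3, e4, e5⟩, e6⟩ := h7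
    obtain ⟨⟨f1, f2, f3, f4, f5⟩, f6⟩ := h8
    simp only at e1 e2 e3 e4 e5 e6 f1 f2 f3 f4 f5 f6
    subst e6 f6
    rw [Prod.mk.injEq]
    refine ⟨?_, rfl⟩
    refine h.un b (a := v₂) ?_ e1.symm f1.symm ?_ ?_
    · rw [SimpleGraph.dist_comm]; omega
    · rw [SimpleGraph.dist_comm, SimpleGraph.dist_comm (u := v₂)]; omega
    · rw [SimpleGraph.dist_comm, SimpleGraph.dist_comm (u := v₂)]; omega

theorem B_sum (h : Poly n Γ) {a b : V} (hab : Γ.Adj a b)
    (hth : ∀ v u : V, ∃ w w', Γ.Adj v w ∧ Γ.Adj v w' ∧ w ≠ u ∧ w' ≠ u ∧ w ≠ w') {k : ℕ}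
    (hk : k < n) : ∑ i ∈ range (k + 1), (B Γ a b i).card + (B Γ a b 0).card ≤
      2 * (B Γ a b k).card := by
  induction k with
  | zero => simp; omega
  | succ k ih =>
    have h1 := ih (by omega)
    have h2 := B_growth h hab hth (k := k) hk
    rw [sum_range_succ]
    omega

theorem B_zero (_h : Poly n Γ) {a b : V} (hab : Γ.Adj a b)
    (hth : ∀ v u : V, ∃ w w', Γ.Adj v w ∧ Γ.Adj v w' ∧ w ≠ u ∧ w' ≠ u ∧ w ≠ w') :
    1 ≤ (B Γ a b 0).card := by
  obtain ⟨w, -, h1, -, h2, -, -⟩ := hth b a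
  rw [Nat.succ_le_iff, card_pos]
  refine ⟨(b, w), ?_⟩
  rw [mem_B]
  refine ⟨h1, SimpleGraph.dist_self, ?_, ?_, ?_⟩
  · exact SimpleGraph.dist_eq_one_iff_adj.2 h1
  · exact SimpleGraph.dist_eq_one_iff_adj.2 hab
  · rintro ⟨-, h3⟩
    exact h2 h3

theorem mem_B_top (h : Poly n Γ) {a b : V} {x : V × V} (hn : 2 ≤ n) (hab : Γ.Adj a b) :
    x ∈ B Γ a b (n - 1) ↔ Γ.Adj x.1 x.2 ∧ Γ.dist a x.1 = n ∧ Γ.dist b x.2 = n := by
  rw [mem_B]
  constructor
  · rintro ⟨h1, h2, h3, h4, h5⟩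
    exact ⟨h1, by omega, by omega⟩
  · rintro ⟨h1, h2, h3⟩
    have h4 := h.ds x.1 hab
    have h5 := h.le b x.1
    refine ⟨h1, by omega, by omega, by omega, ?_⟩
    rintro ⟨h6, -⟩
    rw [h6] at h2 h4
    rw [SimpleGraph.dist_self] at h4
    omega

/-- The flags are covered. -/
theorem B_cover (h : Poly n Γ) (hn : 2 ≤ n) {a b u v : V} (hab : Γ.Adj a b) (huv : Γ.Adj u v) :
    (u = a ∧ v = b ∨ v = a ∧ u = b) ∨ (∃ k < n, (u, v) ∈ B Γ a b k ∨ (v, u) ∈ B Γ a b k) ∨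
    ∃ k < n - 1, (u, v) ∈ B Γ b a k ∨ (v, u) ∈ B Γ b a k := by
  wlog hw : Γ.dist b v = Γ.dist b u + 1 with H
  · have h1 : Γ.dist b u = Γ.dist b v + 1 := by
      have := h.ds' b huv
      omega
    rcases H h hn hab huv.symm h1 with h2 | ⟨k, hk, h2⟩ | ⟨k, hk, h2⟩
    · exact Or.inl h2.symm
    · exact Or.inr (Or.inl ⟨k, hk, h2.symm⟩)
    · exact Or.inr (Or.inr ⟨k, hk, h2.symm⟩)
  have h1 := h.ds u hab
  have h2 := h.ds v hab
  have h3 := h.ds' a huv
  have h4 := h.le b v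
  by_cases hc : u = a ∧ v = b ∨ v = a ∧ u = b
  · exact Or.inl hc
  right
  rcases h1 with h1 | h1
  · -- `b` is nearer to `u`
    left
    refine ⟨Γ.dist b u, by omega, Or.inl ?_⟩
    rw [mem_B]
    refine ⟨huv, rfl, hw, h1, ?_⟩
    rintro ⟨h5, h6⟩
    exact hc (Or.inr ⟨h6, h5⟩)
  · right
    have h5 : Γ.dist a v = Γ.dist a u + 1 := by omega
    refine ⟨Γ.dist a u, by omega, Or.inl ?_⟩
    rw [mem_B]
    refine ⟨huv, rfl, h5, h1, ?_⟩
    rintro ⟨h6, h7⟩
    exact hc (Or.inl ⟨h6, h7⟩)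

open Classical in
/-- The number of the flags is at most three times the number of the flags which are opposite to a
given flag. -/
theorem card_edges (h : Poly n Γ) (hn : 2 ≤ n) {a b : V} (hab : Γ.Adj a b)
    (hth : ∀ v u : V, ∃ w w', Γ.Adj v w ∧ Γ.Adj v w' ∧ w ≠ u ∧ w' ≠ u ∧ w ≠ w')
    (T : Finset (V × V)) (hT : ∀ x ∈ T, Γ.Adj x.1 x.2) (hT2 : ∀ x ∈ T, x.swap ∉ T) :
    T.card ≤ 3 * (B Γ a b (n - 1)).card := by
  obtain ⟨U, hU⟩ : ∃ U, U = ({(a, b)} : Finset (V × V)) ∪ (range n).biUnion (B Γ a b) ∪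
    (range (n - 1)).biUnion (B Γ b a) := ⟨_, rfl⟩
  have h1 : T.image (fun x => s(x.1, x.2)) ⊆ U.image (fun x => s(x.1, x.2)) := by
    intro e he
    rw [mem_image] at he ⊢
    obtain ⟨⟨u, v⟩, hx, rfl⟩ := he
    have h2 := hT _ hx
    rcases B_cover h hn hab h2 with (⟨e1, e2⟩ | ⟨e1, e2⟩) | ⟨k, hk, e1 | e1⟩ | ⟨k, hk, e1 | e1⟩
    · refine ⟨(a, b), ?_, ?_⟩
      · rw [hU]; simp
      · simp only at e1 e2 ⊢; rw [e1, e2]
    · refine ⟨(a, b), ?_, ?_⟩
      · rw [hU]; simp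
      · simp only at e1 e2 ⊢; rw [e1, e2, Sym2.eq_swap]
    · refine ⟨(u, v), ?_, rfl⟩
      rw [hU, mem_union, mem_union, mem_biUnion]
      exact Or.inl (Or.inr ⟨k, mem_range.2 hk, e1⟩)
    · refine ⟨(v, u), ?_, Sym2.eq_swap⟩
      rw [hU, mem_union, mem_union, mem_biUnion]
      exact Or.inl (Or.inr ⟨k, mem_range.2 hk, e1⟩)
    · refine ⟨(u, v), ?_, rfl⟩
      rw [hU, mem_union, mem_biUnion (s := range (n - 1))]
      exact Or.inr ⟨k, mem_range.2 hk, e1⟩
    · refine ⟨(v, u), ?_, Sym2.eq_swap⟩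
      rw [hU, mem_union, mem_biUnion (s := range (n - 1))]
      exact Or.inr ⟨k, mem_range.2 hk, e1⟩
  have h2 : (T.image (fun x => s(x.1, x.2))).card = T.card := by
    apply card_image_of_injOn
    rintro ⟨u, v⟩ hx ⟨u', v'⟩ hy hxy
    rw [mem_coe] at hx hy
    simp only [Sym2.eq_iff] at hxy
    rcases hxy with ⟨h3, h4⟩ | ⟨h3, h4⟩
    · rw [h3, h4]
    · exfalso
      subst h3 h4
      exact hT2 _ hx hy
  have h3 := (card_le_card h1).trans card_image_le
  rw [h2] at h3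
  have h4 : U.card ≤ 1 + ∑ k ∈ range n, (B Γ a b k).card +
      ∑ k ∈ range (n - 1), (B Γ b a k).card := by
    rw [hU]
    refine (card_union_le _ _).trans (Nat.add_le_add ?_ card_biUnion_le)
    refine (card_union_le _ _).trans (Nat.add_le_add ?_ card_biUnion_le)
    simp
  have h5 := B_sum h hab hth (k := n - 1) (by omega)
  have h6 := B_sum h hab.symm hth (k := n - 1) (by omega)
  rw [Nat.sub_add_cancel (by omega)] at h5
  rw [sum_range_succ] at h6
  have h7 := B_zero h hab hth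
  have h8 := B_zero h hab.symm hth
  have h9 : (B Γ b a (n - 1)).card = (B Γ a b (n - 1)).card := by
    apply card_bij (fun x _ => x.swap)
    · intro x hx
      rw [mem_B_top h hn hab.symm] at hx
      rw [mem_B_top h hn hab]
      exact ⟨hx.1.symm, hx.2.2, hx.2.1⟩
    · intro x _ y _ hxy
      exact Prod.swap_injective hxy
    · intro x hx
      rw [mem_B_top h hn hab] at hx
      refine ⟨x.swap, ?_, Prod.swap_swap x⟩
      rw [mem_B_top h hn hab.symm]
      exact ⟨hx.1.symm, hx.2.2, hx.2.1⟩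
  omega

end Pool.Agent.U737.GP
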