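import Mathlib

/-!
# Distances in generalized polygons
-/

set_option autoImplicit false

namespace Pool.Agent.U737.GP

open Finset

variable {V : Type}

/-- The properties of the incidence graph of a generalized `n`-gon which are used. -/
structure Poly (n : ℕ) (Γ : SimpleGraph V) : Prop where
  conn : Γ.Connected
  le : ∀ a x, Γ.dist a x ≤ n
  ds : ∀ {a b : V} (x : V), Γ.Adj a b →
    Γ.dist a x = Γ.dist b x + 1 ∨ Γ.dist b x = Γ.dist a x + 1
  un : ∀ {a b b' : V} (x : V), Γ.dist a x < n → Γ.Adj a b → Γ.Adj a b' →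
    Γ.dist b x < Γ.dist a x → Γ.dist b' x < Γ.dist a x → b = b'

variable {n : ℕ} {Γ : SimpleGraph V}

theorem toward (h : Γ.Connected) {a x : V} (hax : Γ.dist a x ≠ 0) :
    ∃ b, Γ.Adj a b ∧ Γ.dist b x + 1 = Γ.dist a x := by
  obtain ⟨w, hw⟩ := h.exists_walk_length_eq_dist a x
  cases w with
  | nil => simp at hax
  | cons hab w =>
    rename_i b
    refine ⟨b, hab, ?_⟩
    have h1 : Γ.dist b x ≤ w.length := SimpleGraph.dist_le w
    have h2 : Γ.dist a x ≤ Γ.dist b x + 1 := by
      obtain ⟨w', hw'⟩ := h.exists_walk_length_eq_dist b x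
      rw [← hw']
      exact SimpleGraph.dist_le (SimpleGraph.Walk.cons hab w')
    rw [SimpleGraph.Walk.length_cons] at hw
    omega

theorem Poly.ds' (h : Poly n Γ) {u v : V} (a : V) (huv : Γ.Adj u v) :
    Γ.dist a u = Γ.dist a v + 1 ∨ Γ.dist a v = Γ.dist a u + 1 := by
  have := h.ds a huv
  rwa [SimpleGraph.dist_comm (u := u), SimpleGraph.dist_comm (u := v)] at this

theorem Poly.eq_of (h : Poly n Γ) {a u : V} (h0 : Γ.dist a u = 0) : a = u :=
  (h.conn.dist_eq_zero_iff).1 h0

/-- If `a` is nearer to `u` and `b` is nearer to `v` then the flags are equal or opposite. -/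
theorem Poly.cross (h : Poly n Γ) {a b u v : V} (hab : Γ.Adj a b) (huv : Γ.Adj u v)
    (h1 : Γ.dist a v = Γ.dist a u + 1) (h2 : Γ.dist b u = Γ.dist b v + 1) :
    (u = a ∧ v = b) ∨ (Γ.dist a v = n ∧ Γ.dist b u = n) := by
  have h3 := h.ds u hab
  have h4 := h.ds v hab
  have h5 : Γ.dist b v = Γ.dist a u := by omega
  by_cases h0 : Γ.dist a u = 0
  · left
    exact ⟨(h.eq_of h0).symm, (h.eq_of (h5.trans h0)).symm⟩
  · right
    by_contra hcon
    have hle := h.le a v
    have hlt : Γ.dist a v < n := by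
      have := h.le b u
      omega
    obtain ⟨a₁, h6, h7⟩ := toward h.conn h0
    have h8 := h.ds' a₁ huv
    have h9 := h.ds v h6
    have h10 : a₁ = b := h.un v hlt h6 hab (by omega) (by omega)
    rw [h10] at h7
    omega

/-- The distance from a vertex to a flag. -/
noncomputable def dE (Γ : SimpleGraph V) (a u v : V) : ℕ := min (Γ.dist a u) (Γ.dist a v)

theorem dE_comm (a u v : V) : dE Γ a u v = dE Γ a v u := min_comm _ _

/-- The possible relations of two flags. -/
theorem Poly.classify (h : Poly n Γ) (hn : 2 ≤ n) {a b u v : V} (hab : Γ.Adj a b)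
    (huv : Γ.Adj u v) :
    dE Γ a u v + 1 ≤ n ∧
    (((u = a ∧ v = b ∨ v = a ∧ u = b) ∧ dE Γ a u v = 0 ∧ dE Γ b u v = 0) ∨
    ((Γ.dist a u = n ∧ Γ.dist b v = n ∨ Γ.dist a v = n ∧ Γ.dist b u = n) ∧
      dE Γ a u v + 1 = n ∧ dE Γ b u v + 1 = n) ∨
    dE Γ a u v = dE Γ b u v + 1 ∨ dE Γ b u v = dE Γ a u v + 1) := by
  wlog hw : Γ.dist a v = Γ.dist a u + 1 with H
  · have h1 : Γ.dist a u = Γ.dist a v + 1 := by
      have := h.ds' a huv
      omega
    have h2 := H h hn hab huv.symm h1
    rw [dE_comm (Γ := Γ) a u v, dE_comm (Γ := Γ) b u v]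
    refine ⟨h2.1, ?_⟩
    rcases h2.2 with ⟨h3, h4⟩ | ⟨h3, h4⟩ | h3
    · exact Or.inl ⟨h3.symm, h4⟩
    · exact Or.inr (Or.inl ⟨h3.symm, h4⟩)
    · exact Or.inr (Or.inr h3)
  have ha : dE Γ a u v = Γ.dist a u := by unfold dE; omega
  have h0 := h.le a v
  refine ⟨by omega, ?_⟩
  have hb := h.ds' b huv
  have h3 := h.ds u hab
  have h4 := h.ds v hab
  rcases hb with hb | hb
  · have hbE : dE Γ b u v = Γ.dist b v := by unfold dE; omega
    have h5 : Γ.dist b v = Γ.dist a u := by omega
    rcases h.cross hab huv hw hb with ⟨h6, h7⟩ | ⟨h6, h7⟩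
    · left
      refine ⟨Or.inl ⟨h6, h7⟩, ?_, ?_⟩
      · rw [ha, h6, SimpleGraph.dist_self]
      · rw [hbE, h7, SimpleGraph.dist_self]
    · right; left
      exact ⟨Or.inr ⟨h6, h7⟩, by omega, by omega⟩
  · have hbE : dE Γ b u v = Γ.dist b u := by unfold dE; omega
    right; right
    omega

/-- The levels of the flags for a frame, as a function of the distances. -/
def rF (n i j : ℕ) : ℕ :=
  if i = j then (if i = 0 then n else 0) else if j < i then n - 1 - j else n + 1 + i

theorem rF_lt {n i j : ℕ} (hi : i + 1 ≤ n) : rF n i j < 2 * n + 1 := by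
  unfold rF
  split_ifs <;> omega

theorem Poly.stepF (h : Poly n Γ) (hn : 2 ≤ n) {a b b' u v : V} (hab : Γ.Adj a b)
    (hab' : Γ.Adj a b') (hne : b ≠ b') (huv : Γ.Adj u v)
    (h0 : rF n (dE Γ a u v) (dE Γ b u v) ≠ 0) :
    rF n (dE Γ b' u v) (dE Γ a u v) < rF n (dE Γ a u v) (dE Γ b u v) := by
  obtain ⟨h1, h2⟩ := h.classify hn hab huv
  obtain ⟨h3, h4⟩ := h.classify hn hab'.symm huv
  rcases h2 with ⟨h5, h6, h7⟩ | ⟨h5, h6, h7⟩ | h2 | h2
  · -- the flag of the frame
    rcases h4 with ⟨h8, h9, h10⟩ | ⟨h8, h9, h10⟩ | h4 | h4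
    · exfalso
      have hna : a ≠ b := hab.ne
      have hna' : a ≠ b' := hab'.ne
      rcases h5 with ⟨e1, e2⟩ | ⟨e1, e2⟩ <;> rcases h8 with ⟨e3, e4⟩ | ⟨e3, e4⟩
      · exact hna' (e1.symm.trans e3)
      · exact hne (e2.symm.trans e3)
      · exact hne (e2.symm.trans e3)
      · exact hna' (e1.symm.trans e3)
    · omega
    · unfold rF
      rw [h6, h7, if_pos rfl, if_pos rfl, if_neg (by omega), if_pos (by omega)]
      omega
    · omega
  · exfalso
    apply h0
    unfold rF
    rw [if_pos (by omega), if_neg (by omega)]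
  · -- the side of `b`
    have hb' : dE Γ b' u v + 1 ≠ dE Γ a u v := by
      intro h8
      -- the vertex of the flag nearest to `a`
      have key : ∀ u v : V, Γ.Adj u v → dE Γ a u v = Γ.dist a u → Γ.dist a v = Γ.dist a u + 1 →
          dE Γ a u v = dE Γ b u v + 1 → dE Γ b' u v + 1 = dE Γ a u v →
          dE Γ a u v + 1 ≤ n → False := by
        intro u v huv k1 k2 k3 k4 k5
        have e1 := h.ds u hab
        have e2 := h.ds v hab
        have e3 := h.ds u hab'
        have e4 := h.ds v hab'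
        have e5 : Γ.dist b u < Γ.dist a u := by
          unfold dE at k3 k1
          omega
        have e6 : Γ.dist b' u < Γ.dist a u := by
          unfold dE at k4 k1
          omega
        exact hne (h.un u (by omega) hab hab' e5 e6)
      rcases h.ds' a huv with h9 | h9
      · refine key v u huv.symm ?_ h9 ?_ ?_ ?_
        · unfold dE; omega
        · rw [dE_comm (Γ := Γ) a v u, dE_comm (Γ := Γ) b v u]; exact h2
        · rw [dE_comm (Γ := Γ) a v u, dE_comm (Γ := Γ) b' v u]; exact h8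
        · rw [dE_comm (Γ := Γ) a v u]; exact h1
      · refine key u v huv ?_ h9 h2 h8 h1
        unfold dE; omega
    have hr : rF n (dE Γ a u v) (dE Γ b u v) = n - 1 - dE Γ b u v := by
      unfold rF
      rw [if_neg (by omega), if_pos (by omega)]
    rw [hr] at h0 ⊢
    rcases h4 with ⟨h8, h9, h10⟩ | ⟨h8, h9, h10⟩ | h4 | h4
    · omega
    · unfold rF
      rw [if_pos (by omega), if_neg (by omega)]
      omega
    · unfold rF
      rw [if_neg (by omega), if_pos (by omega)]
      omega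
    · omega
  · -- the side of `a`
    have hr : rF n (dE Γ a u v) (dE Γ b u v) = n + 1 + dE Γ a u v := by
      unfold rF
      rw [if_neg (by omega), if_neg (by omega)]
    rw [hr]
    unfold rF
    split_ifs <;> omega

/-- The levels of the vertices. -/
def rV (n i j : ℕ) : ℕ := if i = n ∨ j = n then 0 else if j < i then n - i else n + i

theorem rV_lt {n i j : ℕ} (hi : i ≤ n) (hn : 2 ≤ n) : rV n i j < 2 * n + 1 := by
  unfold rV
  split_ifs <;> omega

theorem Poly.stepV (h : Poly n Γ) (hn : 2 ≤ n) {a b b' u : V} (hab : Γ.Adj a b)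
    (hab' : Γ.Adj a b') (hne : b ≠ b')
    (h0 : rV n (Γ.dist a u) (Γ.dist b u) ≠ 0) :
    rV n (Γ.dist b' u) (Γ.dist a u) < rV n (Γ.dist a u) (Γ.dist b u) := by
  have h1 := h.le a u
  have h2 := h.le b u
  have h3 := h.le b' u
  have h4 := h.ds u hab
  have h5 := h.ds u hab'
  have h6 : ¬ (Γ.dist a u = n ∨ Γ.dist b u = n) := by
    intro h7
    apply h0
    unfold rV
    rw [if_pos h7]
  push Not at h6
  obtain ⟨h7, h8⟩ := h6
  by_cases h9 : Γ.dist b u < Γ.dist a u
  · have h10 : ¬ Γ.dist b' u < Γ.dist a u := by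
      intro h11
      exact hne (h.un u (by omega) hab hab' h9 h11)
    unfold rV
    rw [if_neg (show ¬ (Γ.dist a u = n ∨ Γ.dist b u = n) by omega), if_pos h9]
    split_ifs <;> omega
  · unfold rV
    rw [if_neg (show ¬ (Γ.dist a u = n ∨ Γ.dist b u = n) by omega), if_neg h9]
    split_ifs <;> omega

end Pool.Agent.U737.GP
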