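import Pool.Agent.U737.GP.Model
import Pool.Agent.U737.GP.Poly

/-!
# Girth and diameter
-/

set_option autoImplicit false

namespace Pool.Agent.U737.GP

variable {V : Type}

/-- Two different paths with the same end points contain a cycle. -/
theorem girth_le_of_paths {Γ : SimpleGraph V} {a x : V} {p q : Γ.Walk a x} (hp : p.IsPath)
    (hq : q.IsPath) (hne : p ≠ q) : Γ.girth ≤ p.length + q.length := by
  classical
  obtain ⟨H, hH⟩ : ∃ H, H = SimpleGraph.fromEdgeSet {e : Sym2 V | e ∈ p.edges ∨ e ∈ q.edges} :=
    ⟨_, rfl⟩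
  have hHe : ∀ e ∈ H.edgeSet, e ∈ p.edges ∨ e ∈ q.edges := by
    intro e he
    rw [hH, SimpleGraph.edgeSet_fromEdgeSet] at he
    exact he.1
  have hle : H ≤ Γ := by
    rw [← SimpleGraph.edgeSet_subset_edgeSet]
    intro e he
    rcases hHe e he with h | h
    · exact p.edges_subset_edgeSet h
    · exact q.edges_subset_edgeSet h
  have hpe : ∀ e, e ∈ p.edges → e ∈ H.edgeSet := by
    intro e he
    rw [hH, SimpleGraph.edgeSet_fromEdgeSet]
    refine ⟨Or.inl he, ?_⟩
    exact SimpleGraph.not_isDiag_of_mem_edgeSet Γ (p.edges_subset_edgeSet he)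
  have hqe : ∀ e, e ∈ q.edges → e ∈ H.edgeSet := by
    intro e he
    rw [hH, SimpleGraph.edgeSet_fromEdgeSet]
    refine ⟨Or.inr he, ?_⟩
    exact SimpleGraph.not_isDiag_of_mem_edgeSet Γ (q.edges_subset_edgeSet he)
  have hnac : ¬ H.IsAcyclic := by
    intro hac
    have h1 := (SimpleGraph.isAcyclic_iff_subsingleton_path.1 hac a x)
    have h2 : (⟨p.transfer H hpe, hp.transfer hpe⟩ : H.Path a x) =
        ⟨q.transfer H hqe, hq.transfer hqe⟩ := Subsingleton.elim _ _
    have h3 : p.transfer H hpe = q.transfer H hqe := congrArg Subtype.val h2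
    apply hne
    have h4 : (p.transfer H hpe).support = (q.transfer H hqe).support := by rw [h3]
    rw [SimpleGraph.Walk.support_transfer, SimpleGraph.Walk.support_transfer] at h4
    exact SimpleGraph.Walk.ext_support h4
  unfold SimpleGraph.IsAcyclic at hnac
  push Not at hnac
  obtain ⟨v, c, hc⟩ := hnac
  have h5 : c.edges.Nodup := hc.edges_nodup
  have h6 : c.edges ⊆ p.edges ++ q.edges := by
    intro e he
    rw [List.mem_append]
    exact hHe e (c.edges_subset_edgeSet he)
  have h7 : c.length ≤ p.length + q.length := by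
    have h8 := (List.subperm_of_subset h5 h6).length_le
    rw [List.length_append, SimpleGraph.Walk.length_edges, SimpleGraph.Walk.length_edges,
      SimpleGraph.Walk.length_edges] at h8
    exact h8
  have h9 := SimpleGraph.girth_le_length (hc.mapLe hle)
  rw [SimpleGraph.Walk.length_map] at h9
  omega

theorem dist_parity {Γ : SimpleGraph V} (c : Γ.Coloring Bool) (hc : Γ.Connected) (a x : V) :
    Even (Γ.dist a x) ↔ (c a ↔ c x) := by
  obtain ⟨w, hw⟩ := hc.exists_walk_length_eq_dist a x
  rw [← hw]
  exact c.even_length_iff_congr w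

theorem poly_of_graph {Γ : SimpleGraph V} {n : ℕ} (c : Γ.Coloring Bool) (hc : Γ.Connected)
    (hd : ∀ x y, Γ.dist x y ≤ n) (hg : Γ.girth = 2 * n) : Poly n Γ where
  conn := hc
  le := hd
  ds := by
    intro a b x hab
    have h1 : Γ.dist a x ≤ Γ.dist b x + 1 := by
      obtain ⟨w, hw⟩ := hc.exists_walk_length_eq_dist b x
      rw [← hw]
      exact SimpleGraph.dist_le (SimpleGraph.Walk.cons hab w)
    have h2 : Γ.dist b x ≤ Γ.dist a x + 1 := by
      obtain ⟨w, hw⟩ := hc.exists_walk_length_eq_dist a x
      rw [← hw]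
      exact SimpleGraph.dist_le (SimpleGraph.Walk.cons hab.symm w)
    have h3 : Γ.dist a x ≠ Γ.dist b x := by
      intro h
      have h4 := dist_parity c hc a x
      have h5 := dist_parity c hc b x
      rw [h] at h4
      have h6 := h4.symm.trans h5
      have h7 := c.valid hab
      cases ha : c a <;> cases hb : c b <;> cases hx : c x <;> simp_all
    omega
  un := by
    intro a b b' x hx hab hab' hb hb'
    by_contra hne
    have key : ∀ b, Γ.Adj a b → Γ.dist b x < Γ.dist a x → ∃ w : Γ.Walk b x,
        w.length + 1 = Γ.dist a x := by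
      intro b hab hb
      obtain ⟨w, hw⟩ := hc.exists_walk_length_eq_dist b x
      refine ⟨w, ?_⟩
      have h1 : Γ.dist a x ≤ (SimpleGraph.Walk.cons hab w).length := SimpleGraph.dist_le _
      rw [SimpleGraph.Walk.length_cons] at h1
      omega
    obtain ⟨w, hw⟩ := key b hab hb
    obtain ⟨w', hw'⟩ := key b' hab' hb'
    have hp : (SimpleGraph.Walk.cons hab w).IsPath := by
      apply SimpleGraph.Walk.isPath_of_length_eq_dist
      rw [SimpleGraph.Walk.length_cons, hw]
    have hp' : (SimpleGraph.Walk.cons hab' w').IsPath := by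
      apply SimpleGraph.Walk.isPath_of_length_eq_dist
      rw [SimpleGraph.Walk.length_cons, hw']
    have h1 := girth_le_of_paths hp hp' (by
      intro h
      apply hne
      injection h)
    rw [SimpleGraph.Walk.length_cons, SimpleGraph.Walk.length_cons, hw, hw', hg] at h1
    omega

variable {P L : Type}

/-- points and lines -/
def incColoring (I : P → L → Prop) : (incGraph I).Coloring Bool :=
  SimpleGraph.Coloring.mk Sum.isLeft (by
    rintro x y (⟨u, v, rfl, rfl, -⟩ | ⟨u, v, rfl, rfl, -⟩)
    · simp
    · simp)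

theorem poly_of_polygon {n : ℕ} {I : P → L → Prop} (h : GeneralizedPolygon n I) :
    Poly n (incGraph I) :=
  poly_of_graph (incColoring I) h.1 h.2.1 h.2.2

end Pool.Agent.U737.GP
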