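import Pool.Agent.U737.GP.Sweep
import Pool.Agent.U737.GP.Girth
import Pool.Agent.U737.GP.Count

/-!
# Monotone functions on generalized polygons
-/

set_option autoImplicit false

namespace Pool.Agent.U737.GP

open Finset
open scoped Pointwise
open Pool.Agent.R570.PS

variable {P L : Type} {G : Type} [Group G] [MulAction G P] [MulAction G L]
  {I : P → L → Prop} {n : ℕ}

/-- the action on the vertices of the incidence graph -/
def sm (g : G) : P ⊕ L → P ⊕ L := Sum.map (g • ·) (g • ·)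

theorem sm_adj (hI : ∀ (g : G) u v, I u v → I (g • u) (g • v)) (g : G) {x y : P ⊕ L}
    (h : (incGraph I).Adj x y) : (incGraph I).Adj (sm g x) (sm g y) := by
  rcases h with ⟨u, v, rfl, rfl, h⟩ | ⟨u, v, rfl, rfl, h⟩
  · exact Or.inl ⟨g • u, g • v, rfl, rfl, hI g u v h⟩
  · exact Or.inr ⟨g • u, g • v, rfl, rfl, hI g u v h⟩

theorem sm_inv (g : G) (x : P ⊕ L) : sm g⁻¹ (sm g x) = x := by
  rcases x with x | x
  · simp [sm]
  · simp [sm]

theorem sm_dist_le (hc : (incGraph I).Connected)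
    (hI : ∀ (g : G) u v, I u v → I (g • u) (g • v)) (g : G) (x y : P ⊕ L) :
    (incGraph I).dist (sm g x) (sm g y) ≤ (incGraph I).dist x y := by
  obtain ⟨w, hw⟩ := hc.exists_walk_length_eq_dist x y
  have f : incGraph I →g incGraph I := ⟨sm g, fun h => sm_adj hI g h⟩
  have h1 := SimpleGraph.dist_le (w.map (⟨sm g, fun h => sm_adj hI g h⟩ : incGraph I →g incGraph I))
  rw [SimpleGraph.Walk.length_map, hw] at h1
  exact h1

theorem sm_dist (hc : (incGraph I).Connected)
    (hI : ∀ (g : G) u v, I u v → I (g • u) (g • v)) (g : G) (x y : P ⊕ L) :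
    (incGraph I).dist (sm g x) (sm g y) = (incGraph I).dist x y := by
  refine le_antisymm (sm_dist_le hc hI g x y) ?_
  have h := sm_dist_le hc hI g⁻¹ (sm g x) (sm g y)
  rwa [sm_inv, sm_inv] at h

/-- The flags opposite to `c`. -/
def OppSet (n : ℕ) (I : P → L → Prop) (c : P × L) : Set (P × L) :=
  {e | I e.1 e.2 ∧ Opposite n I c e}

theorem opp_smul (hc : (incGraph I).Connected)
    (hI : ∀ (g : G) u v, I u v → I (g • u) (g • v)) {c e : P × L} {g : G} (hg : g • c = c)
    (he : e ∈ OppSet n I c) : g • e ∈ OppSet n I c := by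
  refine ⟨hI g _ _ he.1, ?_⟩
  have h1 : g • c.1 = c.1 := congrArg Prod.fst hg
  have h2 : g • c.2 = c.2 := congrArg Prod.snd hg
  have e1 := sm_dist hc hI g (.inl c.1) (.inl e.1)
  have e2 := sm_dist hc hI g (.inl c.1) (.inr e.2)
  have e3 := sm_dist hc hI g (.inr c.2) (.inl e.1)
  have e4 := sm_dist hc hI g (.inr c.2) (.inr e.2)
  simp only [sm, Sum.map_inl, Sum.map_inr, h1, h2] at e1 e2 e3 e4
  have h3 := he.2
  unfold Opposite at h3 ⊢
  show ((incGraph I).dist (.inl c.1) (.inl (g • e.1)) = n ∧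
    (incGraph I).dist (.inr c.2) (.inr (g • e.2)) = n) ∨
    ((incGraph I).dist (.inl c.1) (.inr (g • e.2)) = n ∧
      (incGraph I).dist (.inr c.2) (.inl (g • e.1)) = n)
  rw [e1, e2, e3, e4]
  exact h3

/-- The hypothesis on the group. -/
def Trans (n : ℕ) (I : P → L → Prop) (p : ℕ) (G : Type) [Group G] [MulAction G P]
    [MulAction G L] : Prop :=
  ∀ c : P × L, I c.1 c.2 →
    (∃ k : ℕ, Nat.card {e : P × L // I e.1 e.2 ∧ Opposite n I c e} = p ^ k) ∧
    ∀ e e' : P × L, I e.1 e.2 → Opposite n I c e → I e'.1 e'.2 → Opposite n I c e' →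
      ∃ g : G, g • c = c ∧ g • e = e'

theorem exists_P [Finite G] (p : ℕ) [Fact p.Prime] (hc : (incGraph I).Connected)
    (hI : ∀ (g : G) u v, I u v → I (g • u) (g • v)) (hT : Trans n I p G) (c : P × L)
    (hcI : I c.1 c.2) :
    ∃ Q : Subgroup G, (∀ g ∈ Q, g • c = c) ∧ IsPGroup p Q ∧
      ∀ e ∈ OppSet n I c, ∀ e' ∈ OppSet n I c, ∃ g ∈ Q, g • e = e' := by
  obtain ⟨⟨k, hk⟩, htr⟩ := hT c hcI
  obtain ⟨Q, h1, h2, h3⟩ := exists_pgroup p (MulAction.stabilizer G c) (OppSet n I c) k hk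
    (fun g hg e he => opp_smul hc hI hg he)
    (fun e he e' he' => by
      obtain ⟨g, hg, hg'⟩ := htr e e' he.1 he.2 he'.1 he'.2
      exact ⟨g, hg, hg'⟩)
  exact ⟨Q, fun g hg => h1 hg, h2, h3⟩

theorem inc_adj {u : P} {v : L} (h : I u v) : (incGraph I).Adj (.inl u) (.inr v) :=
  Or.inl ⟨u, v, rfl, rfl, h⟩

/-- The two vertices of a frame. -/
def fa (i : {c : P × L // I c.1 c.2} × Bool) : P ⊕ L :=
  if i.2 then .inl i.1.1.1 else .inr i.1.1.2

/-- The two vertices of a frame. -/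
def fb (i : {c : P × L // I c.1 c.2} × Bool) : P ⊕ L :=
  if i.2 then .inr i.1.1.2 else .inl i.1.1.1

theorem fab (i : {c : P × L // I c.1 c.2} × Bool) : (incGraph I).Adj (fa i) (fb i) := by
  obtain ⟨⟨c, hc⟩, b⟩ := i
  cases b
  · exact (inc_adj hc).symm
  · exact inc_adj hc

/-- Thick geometries. -/
def Thick (I : P → L → Prop) : Prop :=
  (∀ u : P, ∃ v v' v'', I u v ∧ I u v' ∧ I u v'' ∧ v ≠ v' ∧ v ≠ v'' ∧ v' ≠ v'') ∧
  ∀ v : L, ∃ u u' u'', I u v ∧ I u' v ∧ I u'' v ∧ u ≠ u' ∧ u ≠ u'' ∧ u' ≠ u''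

theorem thick_graph (h : Thick I) (x y : P ⊕ L) : ∃ w w', (incGraph I).Adj x w ∧
    (incGraph I).Adj x w' ∧ w ≠ y ∧ w' ≠ y ∧ w ≠ w' := by
  have key : ∀ w w' w'' : P ⊕ L, (incGraph I).Adj x w → (incGraph I).Adj x w' →
      (incGraph I).Adj x w'' → w ≠ w' → w ≠ w'' → w' ≠ w'' → ∃ w w', (incGraph I).Adj x w ∧
      (incGraph I).Adj x w' ∧ w ≠ y ∧ w' ≠ y ∧ w ≠ w' := by
    intro w w' w'' h1 h2 h3 h4 h5 h6
    by_cases e1 : w = y
    · exact ⟨w', w'', h2, h3, fun h => h4 (e1.trans h.symm), fun h => h5 (e1.trans h.symm), h6⟩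
    · by_cases e2 : w' = y
      · exact ⟨w, w'', h1, h3, e1, fun h => h6 (e2.trans h.symm), h5⟩
      · exact ⟨w, w', h1, h2, e1, e2, h4⟩
  rcases x with u | v
  · obtain ⟨v, v', v'', h1, h2, h3, h4, h5, h6⟩ := h.1 u
    exact key (.inr v) (.inr v') (.inr v'') (inc_adj h1) (inc_adj h2) (inc_adj h3)
      (fun e => h4 (Sum.inr_injective e)) (fun e => h5 (Sum.inr_injective e))
      (fun e => h6 (Sum.inr_injective e))
  · obtain ⟨u, u', u'', h1, h2, h3, h4, h5, h6⟩ := h.2 v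
    exact key (.inl u) (.inl u') (.inl u'') (inc_adj h1).symm (inc_adj h2).symm (inc_adj h3).symm
      (fun e => h4 (Sum.inl_injective e)) (fun e => h5 (Sum.inl_injective e))
      (fun e => h6 (Sum.inl_injective e))

/-- The next frame. -/
theorem next_frame (h : Thick I) (i : {c : P × L // I c.1 c.2} × Bool) :
    ∃ i' : {c : P × L // I c.1 c.2} × Bool, fb i' = fa i ∧ (incGraph I).Adj (fa i) (fa i') ∧
      fb i ≠ fa i' := by
  obtain ⟨⟨c, hc⟩, b⟩ := i
  cases b
  · obtain ⟨w, -, h1, -, h2, -, -⟩ := thick_graph h (.inr c.2) (.inl c.1)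
    rcases h1 with ⟨u, v, h3, h4, h5⟩ | ⟨u, v, h3, h4, h5⟩
    · cases h3
    · have h6 : c.2 = v := Sum.inr_injective h3
      subst h6
      refine ⟨(⟨(u, c.2), h5⟩, true), rfl, (inc_adj h5).symm, ?_⟩
      intro h7
      exact h2 (h4.trans h7.symm)
  · obtain ⟨w, -, h1, -, h2, -, -⟩ := thick_graph h (.inl c.1) (.inr c.2)
    rcases h1 with ⟨u, v, h3, h4, h5⟩ | ⟨u, v, h3, h4, h5⟩
    · have h6 : c.1 = u := Sum.inl_injective h3
      subst h6
      refine ⟨(⟨(c.1, v), h5⟩, false), rfl, inc_adj h5, ?_⟩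
      intro h7
      exact h2 (h4.trans h7.symm)
    · cases h3

theorem fa_smul {i : {c : P × L // I c.1 c.2} × Bool} {g : G} (hg : g • i.1.1 = i.1.1) :
    sm g (fa i) = fa i ∧ sm g (fb i) = fb i := by
  obtain ⟨⟨c, hc⟩, b⟩ := i
  have h1 : g • c.1 = c.1 := congrArg Prod.fst hg
  have h2 : g • c.2 = c.2 := congrArg Prod.snd hg
  cases b
  · simp [fa, fb, sm, h1, h2]
  · simp [fa, fb, sm, h1, h2]

theorem ind_smul {X : Type} [DecidableEq X] [MulAction G X] {f : (X → Bool) → Bool}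
    (hinv : ∀ (g : G) (x : X → Bool), f (fun v => x (g • v)) = f x) (g : G) (S : Finset X) :
    f (ind (g • S)) = f (ind S) := by
  rw [← hinv g (ind (g • S))]
  congr 1
  funext v
  unfold ind
  exact decide_eq_decide.2 (Finset.smul_mem_smul_finset_iff g)

/-- Flags. -/
theorem flags_main [Finite P] [Finite L] [Finite G] (p : ℕ) [Fact p.Prime] (hn : 2 ≤ n)
    (hpoly : GeneralizedPolygon n I) (hth : Thick I)
    (hI : ∀ (g : G) u v, I u v → I (g • u) (g • v)) (hT : Trans n I p G)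
    {X : Type} [Finite X] [DecidableEq X] [MulAction G X] (π : X → P × L)
    (hπ : ∀ x, I (π x).1 (π x).2) (hπg : ∀ (g : G) x, π (g • x) = g • π x)
    (f : (X → Bool) → Bool) (hmono : Monotone f) (hne : ∃ x y, f x ≠ f y)
    (hinv : ∀ (g : G) (x : X → Bool), f (fun v => x (g • v)) = f x) (d : ℕ) (hd : DepthLe d f) :
    ∃ c : P × L, I c.1 c.2 ∧ Nat.card {e : P × L // I e.1 e.2 ∧ Opposite n I c e} ≤ d := by
  classical
  have hX : Fintype X := Fintype.ofFinite X
  have h := poly_of_polygon hpoly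
  by_contra hcon
  push Not at hcon
  obtain ⟨x₀, y₀, hxy⟩ := hne
  have hXne : Nonempty X := by
    by_contra hem
    rw [not_nonempty_iff] at hem
    exact hxy (congrArg f (Subsingleton.elim _ _))
  have hfr : Nonempty ({c : P × L // I c.1 c.2} × Bool) :=
    ⟨(⟨π (Classical.arbitrary X), hπ _⟩, true)⟩
  have hQ : ∀ i : {c : P × L // I c.1 c.2} × Bool, ∃ Q : Subgroup G,
      (∀ g ∈ Q, g • i.1.1 = i.1.1) ∧ IsPGroup p Q ∧
      ∀ e ∈ OppSet n I i.1.1, ∀ e' ∈ OppSet n I i.1.1, ∃ g ∈ Q, g • e = e' :=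
    fun i => exists_P p h.conn hI hT i.1.1 i.1.2
  choose Q hQ1 hQ2 hQ3 using hQ
  have hadj : ∀ x, (incGraph I).Adj (.inl (π x).1) (.inr (π x).2) := fun x => inc_adj (hπ x)
  have hopp : ∀ (i : {c : P × L // I c.1 c.2} × Bool) (x : X), rF n (dE (incGraph I) (fa i) (.inl (π x).1) (.inr (π x).2))
      (dE (incGraph I) (fb i) (.inl (π x).1) (.inr (π x).2)) = 0 → π x ∈ OppSet n I i.1.1 := by
    intro i x h0
    refine ⟨hπ x, ?_⟩
    obtain ⟨h1, h2⟩ := h.classify hn (fab i) (hadj x)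
    rcases h2 with ⟨-, h3, h4⟩ | ⟨h3, -, -⟩ | h3 | h3
    · exfalso
      rw [h3, h4] at h0
      unfold rF at h0
      rw [if_pos rfl, if_pos rfl] at h0
      omega
    · obtain ⟨⟨c, hc⟩, b⟩ := i
      cases b
      · rcases h3 with ⟨h4, h5⟩ | ⟨h4, h5⟩
        · exact Or.inr ⟨h5, h4⟩
        · exact Or.inl ⟨h5, h4⟩
      · exact h3
    · exfalso
      unfold rF at h0
      rw [if_neg (by omega), if_pos (by omega)] at h0
      omega
    · exfalso
      unfold rF at h0
      rw [if_neg (by omega), if_neg (by omega)] at h0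
      omega
  have hfin := sweep p hmono hd (ind_smul hinv)
    (fun (i : {c : P × L // I c.1 c.2} × Bool) (x : X) =>
      rF n (dE (incGraph I) (fa i) (.inl (π x).1) (.inr (π x).2))
        (dE (incGraph I) (fb i) (.inl (π x).1) (.inr (π x).2))) (2 * n + 1)
    (fun i x => rF_lt (h.classify hn (fab i) (hadj x)).1)
    (fun i => by
      obtain ⟨i', h1, h2, h3⟩ := next_frame hth i
      refine ⟨i', fun x hx => ?_⟩
      have h4 := h.stepF hn (fab i) h2 h3 (hadj x) hx
      rw [h1]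
      exact h4) Q hQ2
    (fun i g hg x => by
      obtain ⟨h1, h2⟩ := fa_smul (hQ1 i g hg)
      have h3 : ∀ y z, (incGraph I).dist (sm g y) (sm g z) = (incGraph I).dist y z :=
        sm_dist h.conn hI g
      have e1 := h3 (fa i) (.inl (π x).1)
      have e2 := h3 (fa i) (.inr (π x).2)
      have e3 := h3 (fb i) (.inl (π x).1)
      have e4 := h3 (fb i) (.inr (π x).2)
      rw [h1] at e1 e2
      rw [h2] at e3 e4
      rw [hπg]
      show rF n (min ((incGraph I).dist (fa i) (.inl (g • (π x).1)))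
        ((incGraph I).dist (fa i) (.inr (g • (π x).2)))) (min
        ((incGraph I).dist (fb i) (.inl (g • (π x).1)))
        ((incGraph I).dist (fb i) (.inr (g • (π x).2)))) = _
      have e1' : (incGraph I).dist (fa i) (.inl (g • (π x).1)) =
        (incGraph I).dist (fa i) (.inl (π x).1) := e1
      have e2' : (incGraph I).dist (fa i) (.inr (g • (π x).2)) =
        (incGraph I).dist (fa i) (.inr (π x).2) := e2
      have e3' : (incGraph I).dist (fb i) (.inl (g • (π x).1)) =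
        (incGraph I).dist (fb i) (.inl (π x).1) := e3
      have e4' : (incGraph I).dist (fb i) (.inr (g • (π x).2)) =
        (incGraph I).dist (fb i) (.inr (π x).2) := e4
      rw [e1', e2', e3', e4']
      rfl)
    (fun i S hS h0 hSQ => by
      obtain ⟨x, hx⟩ := hS
      have h1 := hopp i x (h0 x hx)
      have h2 := hcon i.1.1 i.1.2
      refine lt_of_lt_of_le h2 ?_
      have h3 : OppSet n I i.1.1 ⊆ ((S.image π : Finset (P × L)) : Set (P × L)) := by
        intro e he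
        obtain ⟨g, hg, hge⟩ := hQ3 i _ h1 e he
        rw [mem_coe, mem_image]
        exact ⟨g • x, hSQ g hg x hx, by rw [hπg, hge]⟩
      have h4 : (OppSet n I i.1.1).ncard ≤ (S.image π).card := by
        rw [← Set.ncard_coe_finset]
        exact Set.ncard_le_ncard h3 (Finset.finite_toSet _)
      exact h4.trans card_image_le)
  apply hxy
  have hb : ∀ x : X → Bool, f x = f (ind (∅ : Finset X)) := by
    intro x
    have h1 : f (ind (∅ : Finset X)) ≤ f x := hmono (fun v => by simp [ind])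
    have h2 : f x ≤ f (ind univ) := hmono (fun v => by simp only [ind, mem_univ, decide_true]; exact Bool.le_true _)
    rw [hfin] at h2
    exact le_antisymm h2 h1
  rw [hb x₀, hb y₀]

end Pool.Agent.U737.GP
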