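import Mathlib

/-!
# Generalized polygons: definitions
-/

set_option autoImplicit false

namespace Pool.Agent.U737.GP

variable {P L : Type}

/-- The incidence graph of a geometry with points `P` and lines `L`. -/
def incGraph (I : P → L → Prop) : SimpleGraph (P ⊕ L) where
  Adj x y := (∃ u v, x = .inl u ∧ y = .inr v ∧ I u v) ∨ (∃ u v, x = .inr v ∧ y = .inl u ∧ I u v)
  symm := ⟨by
    rintro x y (⟨u, v, rfl, rfl, h⟩ | ⟨u, v, rfl, rfl, h⟩)
    · exact Or.inr ⟨u, v, rfl, rfl, h⟩
    · exact Or.inl ⟨u, v, rfl, rfl, h⟩⟩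
  loopless := ⟨by
    rintro x (⟨u, v, h1, h2, -⟩ | ⟨u, v, h1, h2, -⟩)
    · rw [h1] at h2; cases h2
    · rw [h1] at h2; cases h2⟩

/-- The geometry is a generalized `n`-gon: its incidence graph is connected, of diameter at most
`n` and of girth `2 n`. -/
def GeneralizedPolygon (n : ℕ) (I : P → L → Prop) : Prop :=
  (incGraph I).Connected ∧ (∀ x y, (incGraph I).dist x y ≤ n) ∧ (incGraph I).girth = 2 * n

/-- The flags `c = (p, l)` and `c' = (p', l')` are opposite: `p'` and `l'` are at distance `n` from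
`p` and `l` (if `n` is even), or from `l` and `p` (if `n` is odd). -/
def Opposite (n : ℕ) (I : P → L → Prop) (c c' : P × L) : Prop :=
  ((incGraph I).dist (.inl c.1) (.inl c'.1) = n ∧ (incGraph I).dist (.inr c.2) (.inr c'.2) = n) ∨
  ((incGraph I).dist (.inl c.1) (.inr c'.2) = n ∧ (incGraph I).dist (.inr c.2) (.inl c'.1) = n)

end Pool.Agent.U737.GP
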