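import Pool.Agent.U737.GP.Main

/-!
# Monotone functions on the points of a generalized polygon, and the numbers
-/

set_option autoImplicit false

namespace Pool.Agent.U737.GP

open Finset
open scoped Pointwise
open Pool.Agent.R570.PS

variable {P L : Type} {G : Type} [Group G] [MulAction G P] [MulAction G L]
  {I : P → L → Prop} {n : ℕ}

/-- A vertex opposite to `a` has a neighbour opposite to the neighbour `b` of `a`. -/
theorem opp_nb (h : Poly n (incGraph I)) (hn : 2 ≤ n) (hth : Thick I) {a b x : P ⊕ L}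
    (hab : (incGraph I).Adj a b) (hx : (incGraph I).dist a x = n) :
    ∃ y, (incGraph I).Adj x y ∧ (incGraph I).dist b y = n := by
  have h1 := h.ds x hab
  have h2 := h.le b x
  have h3 : (incGraph I).dist b x = n - 1 := by omega
  obtain ⟨w, w', h4, h5, h6, h7, h8⟩ := thick_graph hth x x
  have key : ∀ w, (incGraph I).Adj x w → (incGraph I).dist b w ≠ n →
      (incGraph I).dist w b < (incGraph I).dist x b := by
    intro w hw hne
    have h9 := h.ds' b hw
    have h10 := h.le b w
    rw [SimpleGraph.dist_comm (u := w), SimpleGraph.dist_comm (u := x)]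
    omega
  by_cases e : (incGraph I).dist b w = n
  · exact ⟨w, h4, e⟩
  by_cases e' : (incGraph I).dist b w' = n
  · exact ⟨w', h5, e'⟩
  exfalso
  apply h8
  refine h.un b ?_ h4 h5 (key w h4 e) (key w' h5 e')
  rw [SimpleGraph.dist_comm]
  omega

theorem points_main [Finite P] [Finite L] [Finite G] (p : ℕ) [Fact p.Prime] (hn : 2 ≤ n)
    (hpoly : GeneralizedPolygon n I) (hth : Thick I)
    (hI : ∀ (g : G) u v, I u v → I (g • u) (g • v)) (hT : Trans n I p G)
    {X : Type} [Finite X] [DecidableEq X] [MulAction G X] (π : X → P)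
    (hπg : ∀ (g : G) x, π (g • x) = g • π x)
    (f : (X → Bool) → Bool) (hmono : Monotone f) (hne : ∃ x y, f x ≠ f y)
    (hinv : ∀ (g : G) (x : X → Bool), f (fun v => x (g • v)) = f x) (d : ℕ) (hd : DepthLe d f) :
    ∃ w : P ⊕ L, (∃ u : P, (incGraph I).dist w (.inl u) = n) ∧
      Nat.card {u : P // (incGraph I).dist w (.inl u) = n} ≤ d := by
  classical
  have hX : Fintype X := Fintype.ofFinite X
  have h := poly_of_polygon hpoly
  by_contra hcon
  push Not at hcon
  obtain ⟨x₀, y₀, hxy⟩ := hne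
  have hXne : Nonempty X := by
    by_contra hem
    rw [not_nonempty_iff] at hem
    exact hxy (congrArg f (Subsingleton.elim _ _))
  have hfr : Nonempty ({c : P × L // I c.1 c.2} × Bool) := by
    obtain ⟨v, -, -, hv, -⟩ := hth.1 (π (Classical.arbitrary X))
    exact ⟨(⟨(_, v), hv⟩, true)⟩
  have hQ : ∀ i : {c : P × L // I c.1 c.2} × Bool, ∃ Q : Subgroup G,
      (∀ g ∈ Q, g • i.1.1 = i.1.1) ∧ IsPGroup p Q ∧
      ∀ e ∈ OppSet n I i.1.1, ∀ e' ∈ OppSet n I i.1.1, ∃ g ∈ Q, g • e = e' :=
    fun i => exists_P p h.conn hI hT i.1.1 i.1.2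
  choose Q hQ1 hQ2 hQ3 using hQ
  -- transitivity on the vertices opposite to `fa i` or `fb i`
  have htr : ∀ (i : {c : P × L // I c.1 c.2} × Bool) (w : P ⊕ L) (u u' : P),
      (w = fa i ∨ w = fb i) → (incGraph I).dist w (.inl u) = n →
      (incGraph I).dist w (.inl u') = n → ∃ g ∈ Q i, g • u = u' := by
    intro i w u u' hw hu hu'
    have hflag : ∀ u : P, (incGraph I).dist w (.inl u) = n → ∃ v : L, (u, v) ∈ OppSet n I i.1.1 := by
      intro u hu
      obtain ⟨⟨c, hc⟩, b⟩ := i
      have hw' : w = .inl c.1 ∨ w = .inr c.2 := by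
        cases b
        · exact hw.symm
        · exact hw
      rcases hw' with rfl | rfl
      · obtain ⟨y, h1, h2⟩ := opp_nb h hn hth (inc_adj hc) hu
        rcases h1 with ⟨u₁, v₁, h3, h4, h5⟩ | ⟨u₁, v₁, h3, h4, h5⟩
        · have h6 : u = u₁ := Sum.inl_injective h3
          subst h6 h4
          exact ⟨v₁, h5, Or.inl ⟨hu, h2⟩⟩
        · cases h3
      · obtain ⟨y, h1, h2⟩ := opp_nb h hn hth (inc_adj hc).symm hu
        rcases h1 with ⟨u₁, v₁, h3, h4, h5⟩ | ⟨u₁, v₁, h3, h4, h5⟩
        · have h6 : u = u₁ := Sum.inl_injective h3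
          subst h6 h4
          exact ⟨v₁, h5, Or.inr ⟨h2, hu⟩⟩
        · cases h3
    obtain ⟨v, hv⟩ := hflag u hu
    obtain ⟨v', hv'⟩ := hflag u' hu'
    obtain ⟨g, hg, hg'⟩ := hQ3 i _ hv _ hv'
    exact ⟨g, hg, congrArg Prod.fst hg'⟩
  have hfin := sweep p hmono hd (ind_smul hinv)
    (fun (i : {c : P × L // I c.1 c.2} × Bool) (x : X) =>
      rV n ((incGraph I).dist (fa i) (.inl (π x))) ((incGraph I).dist (fb i) (.inl (π x))))
      (2 * n + 1)
    (fun i x => rV_lt (h.le _ _) hn)
    (fun i => by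
      obtain ⟨i', h1, h2, h3⟩ := next_frame hth i
      refine ⟨i', fun x hx => ?_⟩
      have h4 := h.stepV hn (fab i) h2 h3 hx
      rw [h1]
      exact h4) Q hQ2
    (fun i g hg x => by
      obtain ⟨h1, h2⟩ := fa_smul (hQ1 i g hg)
      have h3 : ∀ y z, (incGraph I).dist (sm g y) (sm g z) = (incGraph I).dist y z :=
        sm_dist h.conn hI g
      have e1 := h3 (fa i) (.inl (π x))
      have e3 := h3 (fb i) (.inl (π x))
      rw [h1] at e1
      rw [h2] at e3
      rw [hπg]
      have e1' : (incGraph I).dist (fa i) (.inl (g • π x)) =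
        (incGraph I).dist (fa i) (.inl (π x)) := e1
      have e3' : (incGraph I).dist (fb i) (.inl (g • π x)) =
        (incGraph I).dist (fb i) (.inl (π x)) := e3
      rw [e1', e3'])
    (fun i S hS h0 hSQ => by
      obtain ⟨x, hx⟩ := hS
      have h1 : (incGraph I).dist (fa i) (.inl (π x)) = n ∨
          (incGraph I).dist (fb i) (.inl (π x)) = n := by
        have h2 := h0 x hx
        have h4 := h.le (fa i) (.inl (π x))
        have h5 := h.le (fb i) (.inl (π x))
        unfold rV at h2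
        split_ifs at h2 with h3 <;> first | exact h3 | omega
      have h2 : ∃ w, (w = fa i ∨ w = fb i) ∧ (incGraph I).dist w (.inl (π x)) = n := by
        rcases h1 with h1 | h1
        · exact ⟨_, Or.inl rfl, h1⟩
        · exact ⟨_, Or.inr rfl, h1⟩
      obtain ⟨w, hw, hwn⟩ := h2
      refine lt_of_lt_of_le (hcon w ⟨_, hwn⟩) ?_
      have h3 : {u : P | (incGraph I).dist w (.inl u) = n} ⊆
          ((S.image π : Finset P) : Set P) := by
        intro u hu
        obtain ⟨g, hg, hge⟩ := htr i w _ u hw hwn hu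
        rw [mem_coe, mem_image]
        exact ⟨g • x, hSQ g hg x hx, by rw [hπg, hge]⟩
      have h4 : {u : P | (incGraph I).dist w (.inl u) = n}.ncard ≤ (S.image π).card := by
        rw [← Set.ncard_coe_finset]
        exact Set.ncard_le_ncard h3 (Finset.finite_toSet _)
      exact h4.trans card_image_le)
  apply hxy
  have hb : ∀ x : X → Bool, f x = f (ind (∅ : Finset X)) := by
    intro x
    have h1 : f (ind (∅ : Finset X)) ≤ f x := hmono (fun v => by simp [ind])
    have h2 : f x ≤ f (ind univ) := hmono (fun v => by simp only [ind, mem_univ, decide_true]; exact Bool.le_true _)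
    rw [hfin] at h2
    exact le_antisymm h2 h1
  rw [hb x₀, hb y₀]

/-- The number of flags. -/
theorem flags_card [Finite P] [Finite L] (hn : 2 ≤ n) (hpoly : GeneralizedPolygon n I)
    (hth : Thick I) {c : P × L} (hc : I c.1 c.2) :
    Nat.card {e : P × L // I e.1 e.2} ≤
      3 * Nat.card {e : P × L // I e.1 e.2 ∧ Opposite n I c e} := by
  classical
  have hP : Fintype P := Fintype.ofFinite P
  have hL : Fintype L := Fintype.ofFinite L
  have h := poly_of_polygon hpoly
  obtain ⟨T, hT⟩ : ∃ T : Finset ((P ⊕ L) × (P ⊕ L)), T =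
    (univ.filter (fun e : P × L => I e.1 e.2)).image (fun e => (.inl e.1, .inr e.2)) := ⟨_, rfl⟩
  have h1 := card_edges h hn (inc_adj hc) (thick_graph hth) T (by
    intro x hx
    rw [hT, mem_image] at hx
    obtain ⟨e, he, rfl⟩ := hx
    rw [mem_filter] at he
    exact inc_adj he.2) (by
    intro x hx hx'
    rw [hT, mem_image] at hx hx'
    obtain ⟨e, he, rfl⟩ := hx
    obtain ⟨e', he', h2⟩ := hx'
    have h3 := congrArg Prod.fst h2
    simp at h3)
  have h2 : T.card = Nat.card {e : P × L // I e.1 e.2} := by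
    rw [hT, card_image_of_injective, Nat.card_eq_fintype_card, Fintype.card_subtype]
    rintro ⟨u, v⟩ ⟨u', v'⟩ h3
    simp only [Prod.mk.injEq, Sum.inl.injEq, Sum.inr.injEq] at h3
    rw [h3.1, h3.2]
  have h3 : (B (incGraph I) (.inl c.1) (.inr c.2) (n - 1)).card ≤
      Nat.card {e : P × L // I e.1 e.2 ∧ Opposite n I c e} := by
    rw [Nat.card_eq_fintype_card, Fintype.card_subtype]
    obtain ⟨F, hF⟩ : ∃ F : (P ⊕ L) × (P ⊕ L) → P × L, (∀ u v, F (.inl u, .inr v) = (u, v)) ∧
        ∀ u v, F (.inr v, .inl u) = (u, v) :=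
      ⟨fun x => match x with
        | (.inl u, .inr v) => (u, v)
        | (.inr v, .inl u) => (u, v)
        | _ => c, fun _ _ => rfl, fun _ _ => rfl⟩
    apply card_le_card_of_injOn F
    · intro x hx
      rw [mem_coe, mem_B_top h hn (inc_adj hc)] at hx
      obtain ⟨x1, x2⟩ := x
      obtain ⟨h4, h5, h6⟩ := hx
      rw [mem_coe, mem_filter]
      rcases h4 with ⟨u, v, h7, h8, h9⟩ | ⟨u, v, h7, h8, h9⟩
      · simp only at h7 h8 h5 h6
        subst h7 h8
        rw [hF.1]
        exact ⟨mem_univ _, h9, Or.inl ⟨h5, h6⟩⟩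
      · simp only at h7 h8 h5 h6
        subst h7 h8
        rw [hF.2]
        exact ⟨mem_univ _, h9, Or.inr ⟨h5, h6⟩⟩
    · intro x hx y hy hxy
      rw [mem_coe, mem_B_top h hn (inc_adj hc)] at hx hy
      obtain ⟨x1, x2⟩ := x
      obtain ⟨y1, y2⟩ := y
      obtain ⟨h4, h5, h6⟩ := hx
      obtain ⟨h4', h5', h6'⟩ := hy
      have hpar : ∀ u v, I u v → (incGraph I).dist (.inl c.1) (.inl u) = n →
          (incGraph I).dist (.inl c.1) (.inr v) = n → False := by
        intro u v huv e1 e2
        have := h.ds' (.inl c.1) (inc_adj huv)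
        omega
      rcases h4 with ⟨u, v, h7, h8, h9⟩ | ⟨u, v, h7, h8, h9⟩ <;>
        rcases h4' with ⟨u', v', h7', h8', h9'⟩ | ⟨u', v', h7', h8', h9'⟩ <;>
        simp only at h7 h8 h5 h6 h7' h8' h5' h6' <;> subst h7 h8 h7' h8'
      · rw [hF.1, hF.1, Prod.mk.injEq] at hxy
        rw [hxy.1, hxy.2]
      · rw [hF.1, hF.2, Prod.mk.injEq] at hxy
        exfalso
        obtain ⟨rfl, rfl⟩ := hxy
        exact hpar u v h9 h5 h5'
      · rw [hF.2, hF.1, Prod.mk.injEq] at hxy
        exfalso
        obtain ⟨rfl, rfl⟩ := hxy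
        exact hpar u v h9 h5' h5
      · rw [hF.2, hF.2, Prod.mk.injEq] at hxy
        rw [hxy.1, hxy.2]
  rw [← h2]
  exact h1.trans (Nat.mul_le_mul_left _ h3)

/-- The number of points. -/
theorem points_card [Finite P] [Finite L] (hn : 2 ≤ n) (hpoly : GeneralizedPolygon n I)
    (hth : Thick I) {δ : ℕ} (hδ : ∀ u : P, Nat.card {v : L // I u v} = δ) {w : P ⊕ L} {u₀ : P}
    (hw : (incGraph I).dist w (.inl u₀) = n) :
    Nat.card P ≤ 3 * Nat.card {u : P // (incGraph I).dist w (.inl u) = n} := by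
  classical
  have hP : Fintype P := Fintype.ofFinite P
  have hL : Fintype L := Fintype.ofFinite L
  have h := poly_of_polygon hpoly
  obtain ⟨w', -, hww, -, -, -, -⟩ := thick_graph hth w w
  obtain ⟨T, hT⟩ : ∃ T : Finset ((P ⊕ L) × (P ⊕ L)), T =
    (univ.filter (fun e : P × L => I e.1 e.2)).image (fun e => (.inl e.1, .inr e.2)) := ⟨_, rfl⟩
  have h1 := card_edges h hn hww (thick_graph hth) T (by
    intro x hx
    rw [hT, mem_image] at hx
    obtain ⟨e, he, rfl⟩ := hx
    rw [mem_filter] at he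
    exact inc_adj he.2) (by
    intro x hx hx'
    rw [hT, mem_image] at hx hx'
    obtain ⟨e, he, rfl⟩ := hx
    obtain ⟨e', he', h2⟩ := hx'
    have h3 := congrArg Prod.fst h2
    simp at h3)
  have hsum : ∀ S : Finset P, ((S ×ˢ (univ : Finset L)).filter (fun e => I e.1 e.2)).card =
      S.card * δ := by
    intro S
    rw [card_filter, sum_product, ← smul_eq_mul, ← sum_const]
    refine sum_congr rfl (fun u _ => ?_)
    rw [← hδ u, Nat.card_eq_fintype_card, Fintype.card_subtype, card_filter]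
  have h2 : T.card = Fintype.card P * δ := by
    rw [hT, card_image_of_injective]
    · rw [← card_univ, ← hsum, univ_product_univ]
    · rintro ⟨u, v⟩ ⟨u', v'⟩ h3
      simp only [Prod.mk.injEq, Sum.inl.injEq, Sum.inr.injEq] at h3
      rw [h3.1, h3.2]
  obtain ⟨S, hS⟩ : ∃ S : Finset P, S = univ.filter (fun u => (incGraph I).dist w (.inl u) = n) :=
    ⟨_, rfl⟩
  have h3 : (B (incGraph I) w w' (n - 1)).card ≤ S.card * δ := by
    rw [← hsum S]
    have h4 : B (incGraph I) w w' (n - 1) ⊆ ((S ×ˢ (univ : Finset L)).filter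
        (fun e => I e.1 e.2)).image (fun e => ((.inl e.1, .inr e.2) : (P ⊕ L) × (P ⊕ L))) := by
      rintro ⟨x, y⟩ hx
      rw [mem_B_top h hn hww] at hx
      obtain ⟨h5, h6, h7⟩ := hx
      rcases h5 with ⟨u, v, h8, h9, h10⟩ | ⟨u, v, h8, h9, h10⟩
      · simp only at h8 h9 h6 h7
        subst h8 h9
        rw [mem_image]
        refine ⟨(u, v), ?_, rfl⟩
        rw [mem_filter, mem_product, hS, mem_filter]
        exact ⟨⟨⟨mem_univ _, h6⟩, mem_univ _⟩, h10⟩
      · exfalso
        simp only at h8 h9 h6 h7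
        subst h8 h9
        -- parity
        have p1 := dist_parity (incColoring I) h.conn w (.inl u₀)
        have p2 := dist_parity (incColoring I) h.conn w (.inr v)
        rw [hw] at p1
        rw [h6] at p2
        have p3 := p1.symm.trans p2
        have e1 : incColoring I (.inl u₀) = true := rfl
        have e2 : incColoring I (.inr v) = false := rfl
        rw [e1, e2] at p3
        cases hcw : incColoring I w <;> rw [hcw] at p3 <;> simp at p3
    exact (card_le_card h4).trans card_image_le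
  have hδ0 : 0 < δ := by
    rw [← hδ u₀, Nat.card_pos_iff]
    obtain ⟨v, -, -, hv, -⟩ := hth.1 u₀
    exact ⟨⟨⟨v, hv⟩⟩, inferInstance⟩
  have h5 : Nat.card {u : P // (incGraph I).dist w (.inl u) = n} = S.card := by
    rw [hS, Nat.card_eq_fintype_card, Fintype.card_subtype]
  rw [h5, Nat.card_eq_fintype_card]
  rw [h2] at h1
  refine Nat.le_of_mul_le_mul_right ?_ hδ0
  calc Fintype.card P * δ ≤ 3 * (S.card * δ) := h1.trans (Nat.mul_le_mul_left _ h3)
    _ = 3 * S.card * δ := by ring

end Pool.Agent.U737.GP
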