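import Pool.Agent.R570.PS.RV

/-!
# The sweep lemma

A monotone function which is invariant under certain `p`-groups does not depend on its variables,
if the variables can be swept over: for every frame `i` the variables have levels `ρ i x`, the
variables of level zero are not seen by small decision trees because of a `p`-group which belongs
to `i`, and for another frame all other variables have lower levels.
-/

set_option autoImplicit false

namespace Pool.Agent.U737.GP

open Finset
open scoped Pointwise
open Pool.Agent.R570.PS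

variable {E : Type} [DecidableEq E] [Fintype E] {G : Type} [Group G] [Finite G] [MulAction G E]

theorem sweep (p : ℕ) [Fact p.Prime] {d : ℕ} {f : (E → Bool) → Bool} (hmono : Monotone f)
    (hd : DepthLe d f) (hf : ∀ (g : G) (S : Finset E), f (ind (g • S)) = f (ind S))
    {I : Type} [Nonempty I] (ρ : I → E → ℕ) (m : ℕ) (hm : ∀ i x, ρ i x < m)
    (next : ∀ i, ∃ i', ∀ x, ρ i x ≠ 0 → ρ i' x < ρ i x) (P : I → Subgroup G)
    (hP : ∀ i, IsPGroup p (P i)) (hρ : ∀ i, ∀ g ∈ P i, ∀ x, ρ i (g • x) = ρ i x)
    (hbig : ∀ i (S : Finset E), S.Nonempty → (∀ x ∈ S, ρ i x = 0) →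
      (∀ g ∈ P i, ∀ x ∈ S, g • x ∈ S) → d < S.card) : f (ind univ) = f (ind ∅) := by
  by_contra hne
  have h0 : f (ind (∅ : Finset E)) = false := by
    have h1 : f (ind (∅ : Finset E)) ≤ f (ind univ) := hmono (ind_mono (empty_subset _))
    rcases Bool.eq_false_or_eq_true (f (ind (∅ : Finset E))) with h2 | h2
    · rw [h2] at h1
      have h3 : f (ind univ) = true := top_le_iff.1 h1
      exact absurd (h3.trans h2.symm) hne
    · exact h2
  have key : ∀ k i, f (ind (univ.filter (fun x => ρ i x < k))) = false := by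
    intro k
    induction k with
    | zero => intro i; simpa using h0
    | succ k ih =>
      intro i
      obtain ⟨i', hi'⟩ := next i
      obtain ⟨Y, hY⟩ : ∃ Y, Y = univ.filter (fun x => ρ i x < k + 1 ∧ ρ i x ≠ 0) := ⟨_, rfl⟩
      obtain ⟨O, hO⟩ : ∃ O, O = univ.filter (fun x => ρ i x = 0) := ⟨_, rfl⟩
      have hYO : univ.filter (fun x => ρ i x < k + 1) = Y ∪ O := by
        rw [hY, hO]
        ext x
        simp only [mem_filter, mem_univ, true_and, mem_union]
        omega
      have hYf : f (ind Y) = false := by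
        have h1 : f (ind Y) ≤ f (ind (univ.filter (fun x => ρ i' x < k))) := by
          apply hmono
          apply ind_mono
          intro x hx
          rw [hY, mem_filter] at hx
          rw [mem_filter]
          have := hi' x hx.2.2
          exact ⟨mem_univ _, by omega⟩
        rw [ih i'] at h1
        exact le_bot_iff.1 h1
      have hinv : ∀ (g : P i) (S : Finset E), f (ind (g • S)) = f (ind S) := fun g S => hf g.1 S
      have h2 := rv' p (hP i) hd hinv O.card Y O le_rfl (by
        rw [hY, hO, disjoint_left]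
        intro x hx hx'
        rw [mem_filter] at hx hx'
        exact hx.2.2 hx'.2) (by
        intro g x hx
        rw [hY, mem_filter] at hx ⊢
        have h3 : ρ i (g • x) = ρ i x := hρ i g.1 g.2 x
        rw [h3]
        exact ⟨mem_univ _, hx.2⟩) (by
        intro g x hx
        rw [hO, mem_filter] at hx ⊢
        have h3 : ρ i (g • x) = ρ i x := hρ i g.1 g.2 x
        rw [h3]
        exact ⟨mem_univ _, hx.2⟩) (by
        intro S hS hne' hSi
        refine hbig i S hne' ?_ ?_
        · intro x hx
          have h3 := hS hx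
          rw [hO, mem_filter] at h3
          exact h3.2
        · intro g hg x hx
          exact hSi ⟨g, hg⟩ x hx)
      rw [hYO, h2, hYf]
  have i : I := Classical.arbitrary I
  have h1 := key m i
  rw [filter_true_of_mem (fun x _ => hm i x)] at h1
  exact hne (h1.trans h0.symm)

/-- A transitive action on a set of `p ^ k` elements is transitive for a `p`-subgroup. -/
theorem exists_pgroup (p : ℕ) [Fact p.Prime] {Ω : Type} [MulAction G Ω] (H : Subgroup G)
    (O : Set Ω) (k : ℕ) (hO : Nat.card O = p ^ k) (hH : ∀ g ∈ H, ∀ x ∈ O, g • x ∈ O)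
    (htr : ∀ x ∈ O, ∀ y ∈ O, ∃ g ∈ H, g • x = y) :
    ∃ P : Subgroup G, P ≤ H ∧ IsPGroup p P ∧ ∀ x ∈ O, ∀ y ∈ O, ∃ g ∈ P, g • x = y := by
  obtain ⟨Q⟩ : Nonempty (Sylow p H) := inferInstance
  refine ⟨(Q : Subgroup H).map H.subtype, Subgroup.map_subtype_le _, Q.isPGroup'.map _, ?_⟩
  intro x hx y hy
  have horb : MulAction.orbit H x = O := by
    ext z
    constructor
    · rintro ⟨g, rfl⟩
      exact hH g.1 g.2 x hx
    · intro hz
      obtain ⟨g, hg, hgz⟩ := htr x hx z hz
      exact ⟨⟨g, hg⟩, hgz⟩
  have h1 : (MulAction.stabilizer H x).index = p ^ k := by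
    rw [MulAction.index_stabilizer, horb, ← hO]
    rfl
  have h2 : (MulAction.stabilizer (Q : Subgroup H) x).index =
      (MulAction.orbit (Q : Subgroup H) x).ncard := MulAction.index_stabilizer _ _
  have h3 : (MulAction.stabilizer H x).relIndex (Q : Subgroup H) =
      (MulAction.stabilizer (Q : Subgroup H) x).index := by
    rw [Subgroup.relIndex]
    congr 1
  have h4 : p ^ k ∣ (MulAction.stabilizer H x).relIndex (Q : Subgroup H) *
      (Q : Subgroup H).index := by
    rw [← Subgroup.inf_relIndex_right, Subgroup.relIndex_mul_index inf_le_right, ← h1]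
    exact Subgroup.index_dvd_of_le inf_le_left
  have h5 : Nat.Coprime (p ^ k) (Q : Subgroup H).index := by
    apply Nat.Coprime.pow_left
    rw [Nat.Prime.coprime_iff_not_dvd Fact.out]
    exact Q.not_dvd_index
  have h6 : p ^ k ∣ (MulAction.orbit (Q : Subgroup H) x).ncard := by
    rw [← h2, ← h3]
    exact h5.dvd_of_dvd_mul_right h4
  have hOfin : O.Finite := by
    have hpos : 0 < Nat.card O := by
      rw [hO]
      exact pow_pos (Fact.out : p.Prime).pos k
    exact Set.finite_coe_iff.1 (Nat.finite_of_card_ne_zero hpos.ne')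
  have hsub : MulAction.orbit (Q : Subgroup H) x ⊆ O := by
    rintro z ⟨g, rfl⟩
    exact hH g.1.1 g.1.2 x hx
  have hpos : 0 < (MulAction.orbit (Q : Subgroup H) x).ncard := by
    rw [Set.ncard_pos (hOfin.subset hsub)]
    exact ⟨x, MulAction.mem_orbit_self x⟩
  have h7 : MulAction.orbit (Q : Subgroup H) x = O := by
    apply Set.eq_of_subset_of_ncard_le hsub _ hOfin
    have h8 := Nat.le_of_dvd hpos h6
    rw [← hO] at h8
    exact h8
  rw [← h7] at hy
  obtain ⟨g, hg⟩ := hy
  exact ⟨g.1.1, Subgroup.mem_map.2 ⟨g.1, g.2, rfl⟩, hg⟩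

end Pool.Agent.U737.GP
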